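import Pool.Agent.E8helper60.NP.StmA

/-!
# Project NP, piece NP2 (LEM)
-/

set_option autoImplicit false

open scoped Classical

noncomputable section

namespace Pool.Agent.E8helper3.NP

open Pool.Agent.Y63.NV
open Pool.Agent.E8helper60.NP

section ring

variable {R : Type} [CommRing R] {G : Type} [Group G] [Fintype G]

/-- the convolution product over a commutative ring -/
def gc (f g : G → R) : G → R := fun x => ∑ y : G, f y * g (y⁻¹ * x)

/-- the powers for the convolution product -/
def gp (a : G → R) : ℕ → G → R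
  | 0 => Pi.single 1 1
  | n + 1 => gc a (gp a n)

/-- class functions -/
def Cl (f : G → R) : Prop := ∀ x y : G, f (x * y) = f (y * x)

lemma Cl.conj {f : G → R} (hf : Cl f) (g x : G) : f (g * x * g⁻¹) = f x := by
  rw [hf (g * x) g⁻¹]; simp

lemma Cl.of_conj {f : G → R} (hf : ∀ g x : G, f (g * x * g⁻¹) = f x) : Cl f := by
  intro x y
  rw [← hf y (x * y)]
  congr 1; group

lemma gc_cl {f g : G → R} (hf : Cl f) (hg : Cl g) : Cl (gc f g) := by
  intro x y
  unfold gc
  refine Fintype.sum_equiv (MulAut.conj y).toEquiv _ _ fun s => ?_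
  simp only [MulEquiv.toEquiv_eq_coe, EquivLike.coe_coe, MulAut.conj_apply]
  rw [hf.conj y s]
  congr 1
  rw [← hg.conj y (s⁻¹ * (x * y))]
  congr 1; group

lemma gc_supp {C : Subgroup G} {f g : G → R} (hf : ∀ x, x ∉ C → f x = 0)
    (hg : ∀ x, x ∉ C → g x = 0) : ∀ x, x ∉ C → gc f g x = 0 := by
  intro x hx
  unfold gc
  refine Finset.sum_eq_zero fun y _ => ?_
  by_cases hy : y ∈ C
  · rw [hg (y⁻¹ * x), mul_zero]
    intro h
    apply hx
    have := C.mul_mem hy h
    simpa using this
  · rw [hf y hy, zero_mul]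

lemma gc_sum (f g : G → R) : ∑ x, gc f g x = (∑ x, f x) * ∑ x, g x := by
  unfold gc
  rw [Finset.sum_comm, Finset.sum_mul]
  refine Finset.sum_congr rfl fun y _ => ?_
  rw [← Finset.mul_sum]
  congr 1
  exact Fintype.sum_equiv (Equiv.mulLeft y⁻¹) _ _ fun x => rfl

lemma single_cl : Cl (Pi.single 1 1 : G → R) := by
  intro x y
  by_cases h : x * y = 1
  · have h' : y * x = 1 := by
      have := mul_eq_one_iff_eq_inv.mp h
      rw [this]; simp
    rw [h, h']
  · have h' : y * x ≠ 1 := by
      intro h'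
      apply h
      have := mul_eq_one_iff_eq_inv.mp h'
      rw [this]; simp
    rw [Pi.single_eq_of_ne h, Pi.single_eq_of_ne h']

lemma gp_cl {z : G → R} (hz : Cl z) (n : ℕ) : Cl (gp z n) := by
  induction n with
  | zero => exact single_cl
  | succ n ih => exact gc_cl hz ih

lemma gp_supp {C : Subgroup G} {z : G → R} (hz : ∀ x, x ∉ C → z x = 0) (n : ℕ) :
    ∀ x, x ∉ C → gp z n x = 0 := by
  induction n with
  | zero =>
    intro x hx
    have : x ≠ 1 := fun h => hx (h ▸ C.one_mem)
    exact Pi.single_eq_of_ne this _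
  | succ n ih => exact gc_supp hz ih

lemma gp_sum (z : G → R) (n : ℕ) : ∑ x, gp z n x = (∑ x, z x) ^ n := by
  induction n with
  | zero => simp [gp]
  | succ n ih => rw [pow_succ', ← ih]; exact gc_sum _ _

lemma gp_trans {z : G → R} (hz : Cl z) (y : G) (n : ℕ) (t : G) :
    gp (fun t => z (y⁻¹ * t)) n t = gp z n ((y ^ n)⁻¹ * t) := by
  induction n generalizing t with
  | zero => simp [gp]
  | succ n ih =>
    have e : gp z (n + 1) ((y ^ (n + 1))⁻¹ * t) = gp z (n + 1) (y⁻¹ * t * (y ^ n)⁻¹) := by
      rw [← gp_cl hz (n + 1) (y ^ n)⁻¹ (y⁻¹ * t)]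
      congr 1
      rw [pow_succ']; group
    rw [e]
    show ∑ s : G, z (y⁻¹ * s) * gp (fun t => z (y⁻¹ * t)) n (s⁻¹ * t) =
      ∑ s : G, z s * gp z n (s⁻¹ * (y⁻¹ * t * (y ^ n)⁻¹))
    refine Fintype.sum_equiv (Equiv.mulLeft y⁻¹) _ _ fun s => ?_
    simp only [Equiv.coe_mulLeft]
    rw [ih]
    congr 1
    rw [gp_cl hz n]
    congr 1
    group

end ring

lemma cv_eq {G : Type} [Group G] [Fintype G] (f g : G → ℤ) : cv f g = gc f g := by
  funext x
  unfold cv gc
  rw [finsum_eq_sum_of_fintype]

lemma cpow_eq {G : Type} [Group G] [Fintype G] (a : G → ℤ) (n : ℕ) : cpow a n = gp a n := by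
  induction n with
  | zero => rfl
  | succ n ih =>
    show cv a (cpow a n) = gc a (gp a n)
    rw [ih, cv_eq]

lemma conv_eq {F : Type} [Field F] {G : Type} [Group G] [Fintype G] (f g : G → F) :
    conv f g = gc f g := by
  funext x
  unfold conv gc
  rw [finsum_eq_sum_of_fintype]

lemma gc_cast {F : Type} [Field F] {G : Type} [Group G] [Fintype G] (f g : G → ℤ) :
    (fun x => ((gc f g x : ℤ) : F)) = gc (fun x => (f x : F)) (fun x => (g x : F)) := by
  funext x
  unfold gc
  push_cast
  rfl

lemma single_cast {F : Type} [Field F] {G : Type} [Group G] :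
    (fun x : G => (((Pi.single 1 1 : G → ℤ) x : ℤ) : F)) = Pi.single 1 1 := by
  funext x
  by_cases h : x = 1
  · subst h; simp
  · rw [Pi.single_eq_of_ne h, Pi.single_eq_of_ne h]; simp

section main

variable {G : Type} [Group G] [Fintype G]

/-- the main divisibility -/
lemma star (h : S_TUP) (p : ℕ) [Fact p.Prime] {z : G → ℤ} (hz : Cl z) (m : ℕ) (x y : G)
    (hx : p ∣ orderOf x) (hy : ¬ p ∣ orderOf y) :
    (p : ℤ) ^ (m + 1 - (Nat.card G).factorization p) ∣
      ∑ k : G, if IsConj x k then gp z (p ^ m) (y⁻¹ * k) else 0 := by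
  have hp : p.Prime := Fact.out
  -- a root of `y`
  obtain ⟨y1, hy1⟩ : ∃ y1 : G, y1 ^ (p ^ m) = y := by
    have hc : Nat.Coprime (orderOf y) (p ^ m) :=
      ((Nat.Prime.coprime_iff_not_dvd hp).2 hy).symm.pow_right m
    obtain ⟨r, hr⟩ := exists_pow_eq_self_of_coprime hc.symm
    exact ⟨y ^ r, by rw [← pow_mul, mul_comm, pow_mul]; exact hr⟩
  have := h p G (fun t => z (y1⁻¹ * t)) m x hx
  rw [finsum_eq_sum_of_fintype] at this
  convert this using 4 with k _
  rw [cpow_eq, gp_trans hz, hy1]

lemma card_dvd (x : G) : (Finset.univ.filter fun k : G => IsConj x k).card ∣ Nat.card G := by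
  have h := MulAction.card_orbit_mul_card_stabilizer_eq_card_group (ConjAct G) x
  have e : Fintype.card (MulAction.orbit (ConjAct G) x) =
      (Finset.univ.filter fun k : G => IsConj x k).card := by
    rw [← Set.toFinset_card]
    congr 1
    ext k
    simp only [Set.mem_toFinset, Finset.mem_filter, Finset.mem_univ, true_and]
    rw [ConjAct.mem_orbit_conjAct, isConj_comm]
  rw [e] at h
  rw [Nat.card_eq_fintype_card, ← show Fintype.card (ConjAct G) = Fintype.card G from rfl, ← h]
  exact dvd_mul_right _ _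

/-- the divisibility of the coefficients of `Z * s` -/
lemma key (h : S_TUP) (p : ℕ) [Fact p.Prime] (C : Subgroup G) {z : G → ℤ}
    (hz : Cl z) (hzC : ∀ x, x ∉ C → z x = 0) (hz0 : ∑ x, z x = 0) (m : ℕ)
    (hm : m = 2 * (Nat.card G).factorization p) [C.Normal] (x : G) :
    (p : ℤ) ∣ gc (gp z (p ^ m)) (fun x => if x ∈ C ∧ ¬ p ∣ orderOf x then 1 else 0) x := by
  have hp : p.Prime := Fact.out
  set v := (Nat.card G).factorization p with hv
  set Z := gp z (p ^ m) with hZ
  have hZc : Cl Z := gp_cl hz _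
  have hZC : ∀ x, x ∉ C → Z x = 0 := gp_supp hzC _
  have hZ0 : ∑ x, Z x = 0 := by
    rw [hZ, gp_sum, hz0, zero_pow (pow_ne_zero _ hp.ne_zero)]
  have hstar : ∀ x y : G, p ∣ orderOf x → ¬ p ∣ orderOf y →
      (p : ℤ) ^ (v + 1) ∣ ∑ k : G, if IsConj x k then Z (y⁻¹ * k) else 0 := by
    intro x y hx hy
    have := star h p hz m x y hx hy
    have e : m + 1 - (Nat.card G).factorization p = v + 1 := by
      rw [← hv]; omega
    rwa [e] at this
  set s : G → ℤ := fun x => if x ∈ C ∧ ¬ p ∣ orderOf x then 1 else 0 with hs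
  have hord : ∀ g x : G, orderOf (g * x * g⁻¹) = orderOf x := fun g x => by
    have := orderOf_injective (MulAut.conj g).toMonoidHom (MulAut.conj g).injective x
    simpa using this
  have hmem : ∀ g x : G, g * x * g⁻¹ ∈ C ↔ x ∈ C := by
    intro g x
    constructor
    · intro hh
      have := ‹C.Normal›.conj_mem _ hh g⁻¹
      simpa [mul_assoc] using this
    · intro hh; exact ‹C.Normal›.conj_mem _ hh g
  have hsc : Cl s := by
    apply Cl.of_conj
    intro g x
    simp only [hs, hord, hmem]
  have huc : Cl (gc Z s) := gc_cl hZc hsc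
  -- the formula for `u`
  have hu : ∀ x, gc Z s x = ∑ t : G, s t * Z (t⁻¹ * x) := by
    intro x
    unfold gc
    refine Fintype.sum_equiv ((Equiv.inv G).trans (Equiv.mulRight x)) _ _ fun y => ?_
    simp only [Equiv.trans_apply, Equiv.coe_mulRight, Equiv.inv_apply]
    rw [mul_comm]
    congr 1
    rw [← hZc.conj x⁻¹ y]
    congr 1
    group
  by_cases hx : p ∣ orderOf x
  · -- the case (A)
    have h1 : ∑ k : G, (if IsConj x k then gc Z s k else 0) =
        ((Finset.univ.filter fun k : G => IsConj x k).card : ℤ) * gc Z s x := by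
      rw [← Finset.sum_filter, ← nsmul_eq_mul, ← Finset.sum_const]
      refine Finset.sum_congr rfl fun k hk => ?_
      rw [Finset.mem_filter] at hk
      obtain ⟨g, hg⟩ := isConj_iff.mp hk.2
      rw [← hg, huc.conj]
    have h2 : (p : ℤ) ^ (v + 1) ∣ ∑ k : G, (if IsConj x k then gc Z s k else 0) := by
      have e : ∑ k : G, (if IsConj x k then gc Z s k else 0) =
          ∑ t : G, s t * ∑ k : G, if IsConj x k then Z (t⁻¹ * k) else 0 := by
        simp_rw [Finset.mul_sum]
        rw [Finset.sum_comm]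
        refine Finset.sum_congr rfl fun k _ => ?_
        split_ifs with hk
        · rw [hu]
        · simp
      rw [e]
      refine Finset.dvd_sum fun t _ => ?_
      by_cases ht : t ∈ C ∧ ¬ p ∣ orderOf t
      · exact Dvd.dvd.mul_left (hstar x t hx ht.2) _
      · have : s t = 0 := by simp only [hs, if_neg ht]
        rw [this, zero_mul]; exact dvd_zero _
    rw [h1] at h2
    obtain ⟨c, hc⟩ := card_dvd (G := G) x
    have h3 : (p : ℤ) ^ (v + 1) ∣ (Nat.card G : ℤ) * gc Z s x := by
      rw [hc]; push_cast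
      rw [mul_comm _ (c : ℤ), mul_assoc]
      exact Dvd.dvd.mul_left h2 _
    have h4 : (Nat.card G : ℤ) = (p : ℤ) ^ v * ((Nat.card G / p ^ v : ℕ) : ℤ) := by
      have := Nat.ordProj_mul_ordCompl_eq_self (Nat.card G) p
      exact_mod_cast this.symm
    rw [h4, pow_succ, mul_assoc] at h3
    have h5 : (p : ℤ) ∣ ((Nat.card G / p ^ v : ℕ) : ℤ) * gc Z s x :=
      Int.dvd_of_mul_dvd_mul_left (pow_ne_zero _ (by exact_mod_cast hp.ne_zero)) h3
    rcases (Nat.prime_iff_prime_int.mp hp).dvd_or_dvd h5 with h6 | h6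
    · exfalso
      have : p ∣ Nat.card G / p ^ v := by exact_mod_cast h6
      exact Nat.not_dvd_ordCompl hp Nat.card_pos.ne' this
    · exact h6
  · by_cases hxC : x ∈ C
    · -- the case (B)
      have h1 : gc Z s x = ∑ t : G, Z (t⁻¹ * x) -
          ∑ t : G, if t ∈ C ∧ p ∣ orderOf t then Z (t⁻¹ * x) else 0 := by
        rw [hu, ← Finset.sum_sub_distrib]
        refine Finset.sum_congr rfl fun t _ => ?_
        by_cases ht : t ∈ C
        · by_cases ht2 : p ∣ orderOf t
          · simp [hs, ht, ht2]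
          · simp [hs, ht, ht2]
        · have : Z (t⁻¹ * x) = 0 := by
            apply hZC
            intro hh
            apply ht
            have := C.mul_mem hxC (C.inv_mem hh)
            simpa using this
          simp [hs, ht, this]
      have h2 : ∑ t : G, Z (t⁻¹ * x) = 0 := by
        rw [← hZ0]
        exact Fintype.sum_equiv ((Equiv.inv G).trans (Equiv.mulRight x)) _ _ fun y => rfl
      have h3 : ∑ t : G, (if t ∈ C ∧ p ∣ orderOf t then Z (t⁻¹ * x) else 0) =
          ∑ t ∈ Finset.univ.filter (fun t : G => t ∈ C ∧ p ∣ orderOf t), Z (x * t) := by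
        rw [Finset.sum_filter]
        refine Fintype.sum_equiv (Equiv.inv G) _ _ fun y => ?_
        simp only [Equiv.inv_apply, inv_mem_iff, orderOf_inv]
        rw [hZc x y⁻¹]
      have h4 : (p : ℤ) ∣
          ∑ t ∈ Finset.univ.filter (fun t : G => t ∈ C ∧ p ∣ orderOf t), Z (x * t) := by
        rw [← Finset.sum_fiberwise (Finset.univ.filter (fun t : G => t ∈ C ∧ p ∣ orderOf t))
          (fun t => ConjClasses.mk t)]
        refine Finset.dvd_sum fun c _ => ?_
        by_cases hc : ∃ t0 : G, t0 ∈ C ∧ p ∣ orderOf t0 ∧ ConjClasses.mk t0 = c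
        · obtain ⟨t0, h01, h02, h03⟩ := hc
          have e : ∑ t ∈ (Finset.univ.filter (fun t : G => t ∈ C ∧ p ∣ orderOf t)).filter
              (fun t => ConjClasses.mk t = c), Z (x * t) =
              ∑ k : G, if IsConj t0 k then Z ((x⁻¹)⁻¹ * k) else 0 := by
            rw [← Finset.sum_filter, inv_inv]
            refine Finset.sum_congr ?_ fun _ _ => rfl
            ext k
            simp only [Finset.mem_filter, Finset.mem_univ, true_and]
            rw [← h03, ConjClasses.mk_eq_mk_iff_isConj]
            constructor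
            · rintro ⟨_, hk⟩; exact hk.symm
            · intro hk
              refine ⟨?_, hk.symm⟩
              obtain ⟨g, hg⟩ := isConj_iff.mp hk
              rw [← hg, hmem, hord]
              exact ⟨h01, h02⟩
          rw [e]
          refine dvd_trans ?_ (hstar t0 x⁻¹ h02 (by rwa [orderOf_inv]))
          exact dvd_pow_self _ (Nat.succ_ne_zero _)
        · have e : (Finset.univ.filter (fun t : G => t ∈ C ∧ p ∣ orderOf t)).filter
              (fun t => ConjClasses.mk t = c) = ∅ := by
            ext k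
            simp only [Finset.mem_filter, Finset.mem_univ, true_and, Finset.notMem_empty,
              iff_false]
            rintro ⟨⟨h1, h2⟩, h3⟩
            exact hc ⟨k, h1, h2, h3⟩
          rw [e, Finset.sum_empty]
          exact dvd_zero _
      rw [h1, h2, h3, zero_sub]
      exact (dvd_neg).mpr h4
    · have : gc Z s x = 0 := by
        apply gc_supp (C := C) hZC _ x hxC
        intro y hy
        simp [hs, hy]
      rw [this]; exact dvd_zero _

end main

section final

variable {F : Type} [Field F] {G : Type} [Group G] [Fintype G]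

lemma inZ_add {C : Subgroup G} {f g : G → F} (hf : InZ C f) (hg : InZ C g) : InZ C (f + g) :=
  ⟨fun a x => by rw [Pi.add_apply, Pi.add_apply, hf.conj, hg.conj],
    fun x hx => by rw [Pi.add_apply, hf.supp x hx, hg.supp x hx, add_zero]⟩

lemma inZ_smul {C : Subgroup G} (a : F) {f : G → F} (hf : InZ C f) : InZ C (a • f) :=
  ⟨fun b x => by rw [Pi.smul_apply, Pi.smul_apply, hf.conj],
    fun x hx => by rw [Pi.smul_apply, hf.supp x hx, smul_zero]⟩

lemma inZ_zero (C : Subgroup G) : InZ C (0 : G → F) := ⟨fun _ _ => rfl, fun _ _ => rfl⟩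

lemma inZ_one (C : Subgroup G) : InZ C (Pi.single 1 1 : G → F) :=
  ⟨fun a x => single_cl.conj a x, fun x hx => by
    have : x ≠ 1 := fun h => hx (h ▸ C.one_mem)
    exact Pi.single_eq_of_ne this _⟩

lemma isLam_zero {C : Subgroup G} {b : (G → F) → F} (hb : IsLam C b) : b 0 = 0 := by
  have := hb.smul 0 0 (inZ_zero C)
  simpa using this

lemma isLam_sum {C : Subgroup G} {b : (G → F) → F} (hb : IsLam C b) {ι : Type} (t : Finset ι)
    (f : ι → G → F) (hf : ∀ i, InZ C (f i)) :
    InZ C (∑ i ∈ t, f i) ∧ b (∑ i ∈ t, f i) = ∑ i ∈ t, b (f i) := by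
  induction t using Finset.induction_on with
  | empty => simp [isLam_zero hb, inZ_zero]
  | insert a t ha ih =>
    rw [Finset.sum_insert ha, Finset.sum_insert ha]
    exact ⟨inZ_add (hf a) ih.1, by rw [hb.add _ _ (hf a) ih.1, ih.2]⟩

lemma isLam_pow {C : Subgroup G} {b : (G → F) → F} (hb : IsLam C b) {z : G → F}
    (hz : InZ C z) (n : ℕ) : InZ C (gp z n) ∧ b (gp z n) = b z ^ n := by
  have hzc : Cl z := Cl.of_conj hz.conj
  have hI : ∀ n, InZ C (gp z n) := fun n =>
    ⟨fun a x => (gp_cl hzc n).conj a x, gp_supp hz.supp n⟩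
  refine ⟨hI n, ?_⟩
  induction n with
  | zero => simpa [gp] using hb.one
  | succ n ih =>
    have : gp z (n + 1) = conv z (gp z n) := by rw [conv_eq]; rfl
    rw [this, hb.mul _ _ hz (hI n), ih, pow_succ']

lemma gp_cast (a : G → ℤ) (n : ℕ) :
    (fun x => ((gp a n x : ℤ) : F)) = gp (fun x => (a x : F)) n := by
  induction n with
  | zero => exact single_cast
  | succ n ih =>
    show (fun x => ((gc a (gp a n) x : ℤ) : F)) = gc (fun x => (a x : F)) (gp (fun x => (a x : F)) n)
    rw [gc_cast, ih]

end final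

/-- NP2 -/
theorem t_LEM (h : Pool.Agent.E8helper60.NP.S_TUP) : Pool.Agent.E8helper60.NP.S_LEM := by
  intro p _ F _ _ Γ _ _ C _ b hb hne
  have hp : p.Prime := Fact.out
  have : Fintype Γ := Fintype.ofFinite Γ
  have hmem : ∀ g x : Γ, g * x * g⁻¹ ∈ C ↔ x ∈ C := by
    intro g x
    constructor
    · intro hh
      have := ‹C.Normal›.conj_mem _ hh g⁻¹
      simpa [mul_assoc] using this
    · intro hh; exact ‹C.Normal›.conj_mem _ hh g
  have hcl : ∀ g x : Γ, ConjClasses.mk (g * x * g⁻¹) = ConjClasses.mk x := by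
    intro g x
    rw [ConjClasses.mk_eq_mk_iff_isConj]
    exact (isConj_iff.mpr ⟨g, rfl⟩).symm
  -- the class sums
  let E : ConjClasses Γ → Γ → ℤ := fun c x => if x ∈ C ∧ ConjClasses.mk x = c then 1 else 0
  have hEc : ∀ c, Cl (E c) := by
    intro c
    apply Cl.of_conj
    intro g x
    simp only [E, hmem, hcl]
  have hEC : ∀ c x, x ∉ C → E c x = 0 := by
    intro c x hx
    simp [E, hx]
  have hEF : ∀ c, InZ C (fun x => (E c x : F)) := fun c =>
    ⟨fun g x => by simp only [(hEc c).conj], fun x hx => by simp only [hEC c x hx, Int.cast_zero]⟩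
  obtain ⟨c, hc⟩ : ∃ c, b (fun x => (E c x : F)) ≠ ∑ x : Γ, (E c x : F) := by
    by_contra hcon
    push Not at hcon
    obtain ⟨z, hz, hz2⟩ := hne
    apply hz2
    have : Fintype (ConjClasses Γ) := Fintype.ofFinite _
    have e : z = ∑ c : ConjClasses Γ, z c.out • (fun x => (E c x : F)) := by
      funext x
      rw [Finset.sum_apply, Finset.sum_eq_single (ConjClasses.mk x)]
      · by_cases hx : x ∈ C
        · have h1 : z (ConjClasses.mk x).out = z x := by
            have h2 : ConjClasses.mk (ConjClasses.mk x).out = ConjClasses.mk x :=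
              Quotient.out_eq _
            rw [ConjClasses.mk_eq_mk_iff_isConj] at h2
            obtain ⟨g, hg⟩ := isConj_iff.mp h2
            exact (hz.conj g _).symm.trans (congrArg z hg)
          simp [E, hx, h1]
        · rw [hz.supp x hx]
          simp [E, hx]
      · intro c _ hc
        simp [E, hc.symm]
      · intro hh; exact absurd (Finset.mem_univ _) hh
    have e2 := isLam_sum hb (Finset.univ : Finset (ConjClasses Γ))
      (fun c => z c.out • (fun x => (E c x : F))) (fun c => inZ_smul _ (hEF c))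
    have e3 : b z = ∑ c : ConjClasses Γ, z c.out * ∑ x : Γ, (E c x : F) := by
      conv_lhs => rw [e]
      rw [e2.2]
      refine Finset.sum_congr rfl fun c _ => ?_
      rw [hb.smul _ _ (hEF c), hcon c]
    rw [e3, finsum_eq_sum_of_fintype]
    simp_rw [Finset.mul_sum]
    rw [Finset.sum_comm]
    refine Finset.sum_congr rfl fun x _ => ?_
    conv_rhs => rw [e]
    rw [Finset.sum_apply]
    rfl
  -- the element `z`
  set K : ℤ := ∑ x : Γ, E c x with hK
  let z : Γ → ℤ := fun x => E c x - K * (Pi.single 1 1 : Γ → ℤ) x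
  have hz : Cl z := by
    intro x y
    simp only [z, hEc c x y, single_cl x y]
  have hzC : ∀ x, x ∉ C → z x = 0 := by
    intro x hx
    have h1 : x ≠ 1 := fun h => hx (h ▸ C.one_mem)
    simp only [z, hEC c x hx, Pi.single_eq_of_ne h1, mul_zero, sub_zero]
  have hz0 : ∑ x, z x = 0 := by
    simp only [z]
    rw [Finset.sum_sub_distrib, ← Finset.mul_sum]
    simp [← hK]
  have hzI : InZ C (fun x => (z x : F)) :=
    ⟨fun g x => by simp only [hz.conj], fun x hx => by simp only [hzC x hx, Int.cast_zero]⟩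
  have hbz : b (fun x => (z x : F)) ≠ 0 := by
    have e : (fun x => (z x : F)) = (fun x => (E c x : F)) + (-(K : F)) • (Pi.single 1 1 : Γ → F) := by
      funext x
      rw [Pi.add_apply, Pi.smul_apply, ← single_cast]
      simp only [z, smul_eq_mul]
      push_cast
      ring
    rw [e, hb.add _ _ (hEF c) (inZ_smul _ (inZ_one C)), hb.smul _ _ (inZ_one C), hb.one]
    intro h0
    apply hc
    rw [← Int.cast_sum, ← hK]
    linear_combination h0
  set m := 2 * (Nat.card Γ).factorization p with hm
  have hkey := fun x => key h p C hz hzC hz0 m hm x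
  have h0 : conv (gp (fun x => (z x : F)) (p ^ m)) (reg p C) = 0 := by
    have e : (reg p C : Γ → F) =
        fun x => (((if x ∈ C ∧ ¬ p ∣ orderOf x then 1 else 0 : ℤ)) : F) := by
      funext x
      unfold reg
      split_ifs <;> simp
    rw [conv_eq, e, ← gp_cast, ← gc_cast]
    funext x
    show ((gc (gp z (p ^ m)) (fun x => if x ∈ C ∧ ¬ p ∣ orderOf x then 1 else 0) x : ℤ) : F) = 0
    exact (CharP.intCast_eq_zero_iff F p _).mpr (hkey x)
  have hregI : InZ C (reg p C : Γ → F) := by
    constructor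
    · intro g x
      have hord : orderOf (g * x * g⁻¹) = orderOf x := by
        have := orderOf_injective (MulAut.conj g).toMonoidHom (MulAut.conj g).injective x
        simpa using this
      simp only [reg, hord, hmem]
    · intro x hx
      simp [reg, hx]
  have h1 := hb.mul _ _ (isLam_pow hb hzI (p ^ m)).1 hregI
  rw [h0, isLam_zero hb, (isLam_pow hb hzI (p ^ m)).2] at h1
  rcases mul_eq_zero.mp h1.symm with h2 | h2
  · exact absurd h2 (pow_ne_zero _ hbz)
  · exact h2

end Pool.Agent.E8helper3.NP
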